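import Pool.Agent.Helper79.OE.GoalsD

/-!
OE-INVS: mass transport.
-/

open MeasureTheory Pool.Agent.Helper73.OE Pool.Agent.Helper78.OE Pool.Agent.Helper79.OE
open scoped ENNReal

namespace Pool.Agent.Helper81.OE.Invs

variable {H S L : Type} [Group H]

/-- the translation of directed edges -/
def trE (g : H) : H × S ≃ H × S where
  toFun e := (g * e.1, e.2)
  invFun e := (g⁻¹ * e.1, e.2)
  left_inv e := by simp
  right_inv e := by simp

theorem measurable_actE {α : Type} [MeasurableSpace α] (g : H) :
    Measurable (Sys.actE g : (H × S → α) → H × S → α) := by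
  rw [measurable_pi_iff]
  intro e
  exact measurable_pi_apply _

theorem measurable_actC (g : H) : Measurable (Sys.actC g : Cfg H S L → Cfg H S L) := by
  rw [measurable_pi_iff]
  intro v
  exact measurable_pi_apply _

theorem map_actE (g : H) : (Sys.lamS H S).map (Sys.actE g) = Sys.lamS H S := by
  have h := Measure.infinitePi_map_piCongrLeft
    (μ := fun _ : H × S => (volume : Measure unitInterval)) (trE g)
  have e : (MeasurableEquiv.piCongrLeft (fun _ : H × S => unitInterval) (trE g) :
      (H × S → unitInterval) → H × S → unitInterval) = Sys.actE g := by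
    funext x j
    have h1 := MeasurableEquiv.piCongrLeft_apply_apply (trE g)
      (β := fun _ : H × S => unitInterval) x ((trE g).symm j)
    rw [Equiv.apply_symm_apply] at h1
    rw [h1]
    rfl
  rw [e] at h
  exact h

/-- the action on states with seeds -/
def TT (g : H) (w : (Cfg H S L × Env H S) × Seeds H S) : (Cfg H S L × Env H S) × Seeds H S :=
  ((Sys.actC g w.1.1, Sys.actE g w.1.2), Sys.actE g w.2)

theorem TT_TT (g k : H) (w : (Cfg H S L × Env H S) × Seeds H S) :
    TT g (TT k w) = TT (g * k) w := by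
  unfold TT Sys.actC Sys.actE
  simp only [mul_inv_rev, mul_assoc]

theorem TT_one (w : (Cfg H S L × Env H S) × Seeds H S) : TT (1 : H) w = w := by
  unfold TT Sys.actC Sys.actE
  simp only [inv_one, one_mul]

theorem measurable_TT (g : H) :
    Measurable (TT g : (Cfg H S L × Env H S) × Seeds H S → _) := by
  unfold TT
  exact (((measurable_actC g).comp (measurable_fst.comp measurable_fst)).prodMk
    ((measurable_actE g).comp (measurable_snd.comp measurable_fst))).prodMk
    ((measurable_actE g).comp measurable_snd)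

/-- `TT` as an equivalence -/
def TE (g : H) : ((Cfg H S L × Env H S) × Seeds H S) ≃ᵐ ((Cfg H S L × Env H S) × Seeds H S) where
  toFun := TT g
  invFun := TT g⁻¹
  left_inv w := by rw [TT_TT, inv_mul_cancel, TT_one]
  right_inv w := by rw [TT_TT, mul_inv_cancel, TT_one]
  measurable_toFun := measurable_TT g
  measurable_invFun := measurable_TT g⁻¹

instance : IsProbabilityMeasure (Sys.lamS H S) := by
  unfold Sys.lamS
  infer_instance

theorem mp_TE (μ : Measure (Cfg H S L × Env H S)) [IsProbabilityMeasure μ] (hμ : Sys.Inv μ)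
    (g : H) : MeasurePreserving (TE g) (μ.prod (Sys.lamS H S)) (μ.prod (Sys.lamS H S)) := by
  refine ⟨(TE g).measurable, ?_⟩
  have m1 : Measurable fun w : Cfg H S L × Env H S => (Sys.actC g w.1, Sys.actE g w.2) :=
    ((measurable_actC g).comp measurable_fst).prodMk ((measurable_actE g).comp measurable_snd)
  have h := Measure.map_prod_map μ (Sys.lamS H S) m1 (measurable_actE g)
  rw [hμ g, map_actE g] at h
  exact h.symm

section equiv

variable [Fintype L] (X : Sys H S L)

omit [Fintype L] in
theorem rev_tr (g v : H) (s : S) : X.rev (g * v, s) = (g * (X.rev (v, s)).1, (X.rev (v, s)).2) :=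
  X.rev_mul g (v, s)

theorem actE_tr {α : Type} (g : H) (η : H × S → α) (e : H × S) :
    Sys.actE g η (g * e.1, e.2) = η e := by
  unfold Sys.actE
  simp

omit [Fintype L] in
theorem Cl_tr (ε : ℝ) (g : H) (η : Env H S) (v : H) (s : S) :
    X.Cl ε (Sys.actE g η) (g * v) s ↔ X.Cl ε η v s := by
  unfold Sys.Cl
  rw [rev_tr, actE_tr g η (v, s), actE_tr g η (X.rev (v, s))]

omit [Fintype L] in
theorem Op_tr (ε : ℝ) (g : H) (η : Env H S) : X.Op ε (Sys.actE g η) = shE g (X.Op ε η) := by
  funext v s
  apply propext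
  unfold shE Sys.Op
  have := Cl_tr X ε g η (g⁻¹ * v) s
  rw [mul_inv_cancel_left] at this
  rw [this]

theorem ChSt_tr (hE : D_EQM) (P : Par) (ε ε' : ℝ) (q : Cfg H S L) (η : Env H S) (u : Seeds H S)
    (g v : H) (s : S) (z : H) :
    X.ChSt P ε ε' (Sys.actC g q) (Sys.actE g η) (Sys.actE g u) (g * v) s (g * z) ↔
      X.ChSt P ε ε' q η u v s z := by
  unfold Sys.ChSt Sys.Si Sys.Pos
  rw [Cl_tr, Cl_tr, rev_tr, actE_tr g η (v, s), actE_tr g η (X.rev (v, s)), Op_tr]
  have e1 : Sys.sd P (Sys.actE g u) (g * v, s) = Sys.sd P u (v, s) := by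
    unfold Sys.sd
    rw [actE_tr g u (v, s)]
  rw [e1, hE X P g (X.Op ε η) v s (Sys.sd P u (v, s)) q]
  have e2 : ∀ f : Cfg H S L, Sys.actC g f (g * z) = f z := by
    intro f
    unfold Sys.actC
    rw [inv_mul_cancel_left]
  rw [e2, e2]

end equiv

theorem invs : D_INVS := by
  intro hE H S L _ _ _ _ X P ε ε' μ _ hμ s
  unfold Sys.cost
  rw [← (Equiv.inv H).tsum_eq]
  refine tsum_congr fun v => ?_
  have h := (mp_TE (S := S) μ hμ v).measure_preimage_equiv
    {w | X.ChSt P ε ε' w.1.1 w.1.2 w.2 1 s v}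
  rw [← h]
  congr 1
  ext w
  have h1 := ChSt_tr X hE P ε ε' w.1.1 w.1.2 w.2 v v⁻¹ s 1
  rw [mul_inv_cancel, mul_one] at h1
  exact h1.symm

end Pool.Agent.Helper81.OE.Invs
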