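import Pool.Agent.Helper79.OE.GoalsD

/-!
OE-YIN: Lemma 7.3, the induction.
-/

open MeasureTheory Pool.Agent.Helper73.OE Pool.Agent.Helper78.OE Pool.Agent.Helper79.OE
open scoped ENNReal

namespace Pool.Agent.Helper81.OE

section aux

variable {H S L : Type} [Group H] (X : Sys H S L)

theorem depOn_mono {α : Type} {A B : Set H} {G : Cfg H S L × Env H S → α} (h : X.DepOn A G)
    (hAB : A ⊆ B) : X.DepOn B G :=
  fun w w' h1 h2 => h w w' (fun z hz => h1 z (hAB hz)) fun z s hz hs => h2 z s (hAB hz) (hAB hs)

theorem depOn_mul {A : Set H} {G G' : Cfg H S L × Env H S → ℝ≥0∞} (h : X.DepOn A G)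
    (h' : X.DepOn A G') : X.DepOn A fun w => G w * G' w := by
  intro w w' h1 h2
  simp only
  rw [h w w' h1 h2, h' w w' h1 h2]

theorem depOn_label {A : Set H} {z : H} (hz : z ∈ A) (c : S) (l : L) :
    X.DepOn A fun w : Cfg H S L × Env H S => ind (w.1 z c = l) := by
  intro w w' h1 _
  simp only
  rw [h1 z hz]

theorem depOn_open {A : Set H} {z : H} {c : S} (hz : z ∈ A) (hc : X.nb z c ∈ A) (ε : ℝ) :
    X.DepOn A fun w : Cfg H S L × Env H S => ind (X.Op ε w.2 z c) := by
  intro w w' _ h2
  apply ind_congr
  apply Op_congr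
  · exact h2 z c hz hc
  · refine h2 _ _ hc ?_
    rw [X.nb_bar]
    exact hz

omit [Group H] in
theorem meas_label [Fintype S] [Fintype L] (z : H) (c : S) (l : L) :
    Measurable fun w : Cfg H S L × Env H S => ind (w.1 z c = l) := by
  apply measurable_ind
  have h1 : Measurable fun w : Cfg H S L × Env H S => w.1 z :=
    (measurable_pi_apply z).comp measurable_fst
  have h2 : MeasurableSet {f : S ≃ L | f c = l} := MeasurableSpace.measurableSet_top
  exact h1 h2

theorem meas_cl (ε : ℝ) (z : H) (c : S) :
    MeasurableSet {w : Cfg H S L × Env H S | X.Cl ε w.2 z c} := by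
  have h1 : ∀ e : H × S, Measurable fun w : Cfg H S L × Env H S => ((w.2 e).1 : ℝ) ^ 2 := by
    intro e
    exact (measurable_subtype_coe.comp
      (measurable_fst.comp ((measurable_pi_apply e).comp measurable_snd))).pow_const 2
  exact (measurableSet_le (h1 _) measurable_const).inter
    (measurableSet_le (h1 _) measurable_const)

theorem meas_op (ε : ℝ) (z : H) (c : S) :
    Measurable fun w : Cfg H S L × Env H S => ind (X.Op ε w.2 z c) :=
  measurable_ind (meas_cl X ε z c).compl

theorem meas_si (ε ε' : ℝ) (z : H) (c : S) :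
    MeasurableSet {w : Cfg H S L × Env H S | X.Si ε ε' w.2 z c} :=
  (meas_cl X ε z c).inter (meas_cl X ε' z c).compl

theorem sum_label [Fintype S] [Fintype L] (f : S ≃ L) (r : S) :
    ∑ a : L, ind (f r = a) = 1 := by
  classical
  rw [Finset.sum_eq_single (f r)]
  · exact ind_true rfl
  · intro a _ ha
    exact ind_false fun h => ha h.symm
  · intro h
    exact absurd (Finset.mem_univ _) h

theorem sum_dir [Fintype S] (f : S ≃ L) (l : L) (A : Finset S) :
    ∑ c ∈ A, ind (f c = l) ≤ 1 := by
  classical
  calc ∑ c ∈ A, ind (f c = l) ≤ ∑ c : S, ind (f c = l) :=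
        Finset.sum_le_univ_sum_of_nonneg fun _ => zero_le
    _ = 1 := by
        rw [Finset.sum_eq_single (f.symm l)]
        · exact ind_true (f.apply_symm_apply l)
        · intro c _ hc
          exact ind_false fun h => hc (by rw [← h, f.symm_apply_apply])
        · intro h
          exact absurd (Finset.mem_univ _) h

end aux

open Classical in
theorem yin : D_YIN := by
  intro hYME hYPR H S L _ _ _ X ε ε' t ζ κ μ hst hκ ht h
  induction h with
  | zero =>
    intro z r l G _ _
    have : ∀ w, G w * yy X ε ε' t ζ κ 0 z r l w = 0 := by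
      intro w
      unfold yy Sys.YY
      exact mul_zero _
    simp only [this, lintegral_zero]
    exact zero_le
  | succ h ih =>
    intro z r l G hG hdep
    set E : Finset S := Finset.univ.erase r with hE
    have hcr : ∀ c ∈ E, c ≠ r := fun c hc => (Finset.mem_erase.1 hc).1
    set I : L → Cfg H S L × Env H S → ℝ≥0∞ := fun a w => ind (w.1 z r = a) with hI
    set Y : L → S → Cfg H S L × Env H S → ℝ≥0∞ :=
      fun a c w => yy X ε ε' t ζ κ h (X.nb z c) (X.bar c) (X.tau a) w with hY
    set P : L → Cfg H S L × Env H S → ℝ≥0∞ := fun a w =>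
      ∏ c ∈ E, (1 + (if X.Si ε ε' w.2 z c then κ else 1) * Y a c w) with hP
    set A : L → S → Cfg H S L × Env H S → ℝ≥0∞ := fun a c w =>
      G w * I a w * ind (w.1 z c = l) * ind (X.Op ε w.2 z c) with hA
    have mI : ∀ a, Measurable (I a) := fun a => meas_label z r a
    have mY : ∀ a c, Measurable (Y a c) := fun a c => (hYME X ε ε' t ζ κ h _ _ _).1
    have mP : ∀ a, Measurable (P a) := by
      intro a
      refine Finset.measurable_prod _ fun c _ => ?_
      exact measurable_const.add ((Measurable.ite (meas_si X ε ε' z c) measurable_const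
        measurable_const).mul (mY a c))
    have mA0 : ∀ a c, Measurable fun w => G w * I a w * ind (w.1 z c = l) := fun a c =>
      (hG.mul (mI a)).mul (meas_label z c l)
    have mA : ∀ a c, Measurable (A a c) := fun a c => (mA0 a c).mul (meas_op X ε z c)
    -- the pointwise formula
    have hpt : ∀ w, G w * yy X ε ε' t ζ κ (h + 1) z r l w =
        ∑ a : L, t * (∑ c ∈ E, A a c w * Y a c w + ζ * (G w * I a w * P a w)) := by
      intro w
      rw [Finset.sum_eq_single (w.1 z r)]
      · have e1 : I (w.1 z r) w = 1 := ind_true rfl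
        have e2 : yy X ε ε' t ζ κ (h + 1) z r l w = t * (∑ c ∈ E,
            (if w.1 z c = l ∧ X.Op ε w.2 z c then Y (w.1 z r) c w else 0) +
              ζ * P (w.1 z r) w) := by
          rw [hP, hY]
          rfl
        have e3 : ∀ c, (if w.1 z c = l ∧ X.Op ε w.2 z c then Y (w.1 z r) c w else 0) =
            ind (w.1 z c = l) * ind (X.Op ε w.2 z c) * Y (w.1 z r) c w := by
          intro c
          rw [← ind_and]
          split_ifs with hc
          · rw [ind_true hc, one_mul]
          · rw [ind_false hc, zero_mul]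
        rw [e2, Finset.sum_congr rfl fun c _ => e3 c, hA]
        simp only [e1, mul_one]
        rw [mul_left_comm, mul_add, Finset.mul_sum]
        congr 2
        · refine Finset.sum_congr rfl fun c _ => ?_
          ring
        · ring
      · intro a _ ha
        have e1 : I a w = 0 := ind_false fun hh => ha hh.symm
        rw [hA]
        simp [e1]
      · intro hh
        exact absurd (Finset.mem_univ _) hh
    have hzS : ∀ c, z ∈ X.Sd z c := fun c => X.self_mem_Sd z c
    -- dependence
    have dGI : ∀ a, ∀ c ∈ E, X.DepOn (X.Sd z c) fun w => G w * I a w := fun a c hc =>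
      depOn_mul X (depOn_mono X hdep (X.Past_subset (hcr c hc))) (depOn_label X (hzS c) r a)
    have dA0 : ∀ a, ∀ c ∈ E, X.DepOn (X.Sd z c) fun w => G w * I a w * ind (w.1 z c = l) :=
      fun a c hc => depOn_mul X (dGI a c hc) (depOn_label X (hzS c) c l)
    have dA : ∀ a, ∀ c ∈ E, X.DepOn (X.Past (X.nb z c) (X.bar c)) (A a c) := by
      intro a c hc
      refine depOn_mul X (depOn_mono X (dA0 a c hc) (X.Sd_subset_Past z c)) ?_
      exact depOn_open X (X.Sd_subset_Past z c (hzS c)) (X.self_mem_Past _ _) ε
    -- the first kind of terms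
    have h1 : ∀ a, ∑ c ∈ E, ∫⁻ w, A a c w * Y a c w ∂μ ≤
        ENNReal.ofReal (1 - ε) * ∫⁻ w, G w * I a w ∂μ := by
      intro a
      calc ∑ c ∈ E, ∫⁻ w, A a c w * Y a c w ∂μ ≤
          ∑ c ∈ E, ENNReal.ofReal (1 - ε) * ∫⁻ w, G w * I a w * ind (w.1 z c = l) ∂μ := by
            refine Finset.sum_le_sum fun c hc => ?_
            refine (ih (X.nb z c) (X.bar c) (X.tau a) (A a c) (mA a c) (dA a c hc)).trans ?_
            exact ((hst z c _ (mA0 a c) (dA0 a c hc)).1).le
        _ = ENNReal.ofReal (1 - ε) *
            ∫⁻ w, ∑ c ∈ E, G w * I a w * ind (w.1 z c = l) ∂μ := by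
            rw [lintegral_finsetSum _ fun c _ => mA0 a c, Finset.mul_sum]
        _ ≤ ENNReal.ofReal (1 - ε) * ∫⁻ w, G w * I a w ∂μ := by
            gcongr with w
            rw [← Finset.mul_sum]
            calc G w * I a w * ∑ c ∈ E, ind (w.1 z c = l) ≤ G w * I a w * 1 := by
                  gcongr
                  exact sum_dir _ _ _
              _ = G w * I a w := mul_one _
    -- the second kind
    have hcard : E.card = Fintype.card S - 1 := by
      rw [hE, Finset.card_erase_of_mem (Finset.mem_univ _), Finset.card_univ]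
    have h2 : ∀ a, ∫⁻ w, G w * I a w * P a w ∂μ ≤
        3 ^ (Fintype.card S - 1) * ∫⁻ w, G w * I a w ∂μ := by
      intro a
      have := hYPR hYME X ε ε' t ζ κ μ hst hκ h ih z E (fun _ => X.tau a)
        (fun w => G w * I a w) (hG.mul (mI a)) (dGI a)
      rw [hcard] at this
      exact this
    -- total
    calc ∫⁻ w, G w * yy X ε ε' t ζ κ (h + 1) z r l w ∂μ
        = ∫⁻ w, ∑ a : L, t * (∑ c ∈ E, A a c w * Y a c w + ζ * (G w * I a w * P a w)) ∂μ := by
          simp only [hpt]
      _ = ∑ a : L, t * (∑ c ∈ E, ∫⁻ w, A a c w * Y a c w ∂μ +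
            ζ * ∫⁻ w, G w * I a w * P a w ∂μ) := by
          have m1 : ∀ a, Measurable fun w => ∑ c ∈ E, A a c w * Y a c w := fun a =>
            Finset.measurable_sum _ fun c _ => (mA a c).mul (mY a c)
          have m2 : ∀ a, Measurable fun w => G w * I a w * P a w := fun a =>
            (hG.mul (mI a)).mul (mP a)
          have m0 : ∀ a c, Measurable fun w => A a c w * Y a c w := fun a c =>
            (mA a c).mul (mY a c)
          have m3 : ∀ a, Measurable fun w =>
              ∑ c ∈ E, A a c w * Y a c w + ζ * (G w * I a w * P a w) := fun a =>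
            (m1 a).add ((m2 a).const_mul ζ)
          have m4 : ∀ a, Measurable fun w =>
              t * (∑ c ∈ E, A a c w * Y a c w + ζ * (G w * I a w * P a w)) := fun a =>
            (m3 a).const_mul t
          rw [lintegral_finsetSum _ fun a _ => m4 a]
          refine Finset.sum_congr rfl fun a _ => ?_
          rw [lintegral_const_mul _ (m3 a), lintegral_add_left (m1 a),
            lintegral_const_mul _ (m2 a), lintegral_finsetSum _ fun c _ => m0 a c]
      _ ≤ ∑ a : L, t * (ENNReal.ofReal (1 - ε) * ∫⁻ w, G w * I a w ∂μ +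
            ζ * (3 ^ (Fintype.card S - 1) * ∫⁻ w, G w * I a w ∂μ)) := by
          refine Finset.sum_le_sum fun a _ => ?_
          gcongr
          · exact h1 a
          · exact h2 a
      _ = t * (ENNReal.ofReal (1 - ε) + ζ * 3 ^ (Fintype.card S - 1)) *
            ∑ a : L, ∫⁻ w, G w * I a w ∂μ := by
          rw [Finset.mul_sum]
          refine Finset.sum_congr rfl fun a _ => ?_
          ring
      _ ≤ 1 * ∑ a : L, ∫⁻ w, G w * I a w ∂μ := by gcongr
      _ = ∫⁻ w, G w ∂μ := by
          have m5 : ∀ a, Measurable fun w => G w * I a w := fun a => hG.mul (mI a)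
          rw [one_mul, ← lintegral_finsetSum _ fun a _ => m5 a]
          refine lintegral_congr fun w => ?_
          rw [← Finset.mul_sum, hI]
          simp only
          rw [sum_label, mul_one]

end Pool.Agent.Helper81.OE
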